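import Mathlib
import Pool.Agent.H25.SI.Fai

/-!
# Characters
-/

set_option autoImplicit false

namespace H29MD

open H25SI

/-- the character of an irreducible representation -/
noncomputable def chr {G : Type} [Group G] (π : IrrRep G) : G → ℂ := fun g => (π.ρ g).trace

/-- irreducible characters -/
def IsIrr {G : Type} [Group G] (χ : G → ℂ) : Prop := ∃ π : IrrRep G, chr π = χ

/-- characters induced from linear characters of subgroups -/
def IsMono {G : Type} [Group G] [Fintype G] (χ : G → ℂ) : Prop :=
  ∃ (H : Subgroup G) (f : H →* ℂˣ), χ = indChar H f

end H29MD
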