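import Mathlib
import Pool.Agent.H29.MD.Defs

/-!
# Orthogonality of the characters

PROOF.  Mathlib has `Representation.char_orthonormal` (`Mathlib/RepresentationTheory/Character.lean`):
for irreducible representations `ρ σ` of a finite group over an algebraically closed field with
`[Invertible (Nat.card G : k)]`:
`(Nat.card G : k)⁻¹ * ∑ g, ρ.character g * σ.character g⁻¹ = if Nonempty (Equiv σ ρ) then 1 else 0`.
For `π : IrrRep G` let `rep π : Representation ℂ G (Fin π.n → ℂ)` be `g ↦ Matrix.toLin' (π.ρ g)`
(e.g. `Matrix.toLinAlgEquiv'` composed with `π.ρ`).  It is irreducible (`Representation.IsIrreducible`,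
`Mathlib/RepresentationTheory/Irreducible.lean`) by `π.pos` and `π.irr` (a subrepresentation is a
submodule stable under all `g`), and `(rep π).character g = (π.ρ g).trace` (`Matrix.trace_toLin'_eq`).
(1) If `Nonempty (Equiv σ ρ)` then the characters agree (`Representation.char_iso`), so
`chr π = chr π'` and the sum is `Nat.card G`.  (2) If not, the sum is `0`, and `chr π ≠ chr π'`
because `chr π = chr π'` would give the same sum as for `(π', π')`, which is `Nat.card G ≠ 0`
(`Nonempty (Equiv ρ ρ)` by `refl`).
-/

set_option autoImplicit false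

namespace H29MD

open H25SI

/-- the representation on column vectors -/
noncomputable def orthRep {G : Type} [Group G] (π : IrrRep G) :
    Representation ℂ G (Fin π.n → ℂ) where
  toFun g := Matrix.toLin' (π.ρ g)
  map_one' := by rw [map_one, Matrix.toLin'_one]; rfl
  map_mul' g h := by rw [map_mul, Matrix.toLin'_mul]; rfl

theorem orthRep_apply {G : Type} [Group G] (π : IrrRep G) (g : G) (v : Fin π.n → ℂ) :
    orthRep π g v = (π.ρ g).mulVec v := rfl

theorem orthRep_char {G : Type} [Group G] (π : IrrRep G) (g : G) :
    (orthRep π).character g = chr π g := by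
  change LinearMap.trace ℂ (Fin π.n → ℂ) (Matrix.toLin' (π.ρ g)) = (π.ρ g).trace
  exact Matrix.trace_toLin'_eq _

instance orthRep_irr {G : Type} [Group G] (π : IrrRep G) :
    Representation.IsIrreducible (orthRep π) := by
  have hne : Nonempty (Fin π.n) := ⟨⟨0, π.pos⟩⟩
  haveI : Nontrivial (Subrepresentation (orthRep π)) := by
    refine ⟨⊥, ⊤, ?_⟩
    intro h
    have h1 : ((⊥ : Subrepresentation (orthRep π)).toSubmodule) =
        (⊤ : Subrepresentation (orthRep π)).toSubmodule := by rw [h]
    change (⊥ : Submodule ℂ (Fin π.n → ℂ)) = ⊤ at h1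
    exact bot_ne_top h1
  refine { eq_bot_or_eq_top := ?_ }
  intro S
  rcases π.irr S.toSubmodule (fun g v hv => S.apply_mem_toSubmodule g hv) with h | h
  · left
    exact Subrepresentation.toSubmodule_injective h
  · right
    exact Subrepresentation.toSubmodule_injective h

open Classical in
theorem orth {G : Type} [Group G] [Fintype G] (π π' : IrrRep G) :
    ∑ g : G, chr π g * chr π' g⁻¹ = if chr π = chr π' then (Nat.card G : ℂ) else 0 := by
  have hc : (Nat.card G : ℂ) ≠ 0 := by
    have : 0 < Nat.card G := Nat.card_pos
    exact_mod_cast this.ne'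
  letI : Invertible (Nat.card G : ℂ) := invertibleOfNonzero hc
  have key : ∀ a b : IrrRep G, (Nat.card G : ℂ)⁻¹ * ∑ g : G, chr a g * chr b g⁻¹ =
      if Nonempty ((orthRep b).Equiv (orthRep a)) then ↑1 else ↑0 := by
    intro a b
    have h := Representation.char_orthonormal (orthRep a) (orthRep b)
    simpa only [orthRep_char] using h
  have hself : ∀ a : IrrRep G, ∑ g : G, chr a g * chr a g⁻¹ = (Nat.card G : ℂ) := by
    intro a
    have h := key a a
    rw [if_pos ⟨Representation.Equiv.refl _⟩] at h
    field_simp at h
    simpa using h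
  by_cases heq : chr π = chr π'
  · rw [if_pos heq, heq]
    exact hself π'
  · rw [if_neg heq]
    have h := key π π'
    have hn : ¬ Nonempty ((orthRep π').Equiv (orthRep π)) := by
      rintro ⟨φ⟩
      apply heq
      have h2 := Representation.char_iso φ
      funext g
      rw [← orthRep_char, ← orthRep_char, h2]
    rw [if_neg hn] at h
    rcases mul_eq_zero.1 h with h3 | h3
    · exact absurd h3 (inv_ne_zero hc)
    · exact h3

end H29MD
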