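import Mathlib
import Pool.Agent.H29.MD.Orth

/-!
# There are finitely many irreducible characters

PROOF.  By `orth` the family `fun χ : {χ : G → ℂ // IsIrr χ} => (χ : G → ℂ)` is linearly independent
in the finite-dimensional space `G → ℂ`: if `∑ χ ∈ s, a χ • χ = 0`, apply the linear functional
`φ ↦ ∑ g, φ g * χ' g⁻¹` for `χ' ∈ s` (with `χ' = chr π'`, all `χ = chr π`): this gives
`a χ' * Nat.card G = 0`, so `a χ' = 0` (`linearIndependent_iff'`).  A linearly independent family in a
finite-dimensional space is finite (`LinearIndependent.finite` or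
`LinearIndependent.setFinite`, or `Module.Finite.finite_of_linearIndependent`..., search Mathlib).
-/

set_option autoImplicit false

namespace H29MD

open H25SI

theorem finite_irr {G : Type} [Group G] [Fintype G] : {χ : G → ℂ | IsIrr χ}.Finite := by
  classical
  have hli : LinearIndependent ℂ (fun χ : {χ : G → ℂ | IsIrr χ} => (χ : G → ℂ)) := by
    rw [linearIndependent_iff']
    intro s a hs χ' hχ'
    have hor : ∀ χ : {χ : G → ℂ | IsIrr χ},
        ∑ g : G, (χ : G → ℂ) g * (χ' : G → ℂ) g⁻¹ = if χ = χ' then (Nat.card G : ℂ) else 0 := by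
      intro χ
      obtain ⟨π, hπ⟩ := χ.2
      obtain ⟨π', hπ'⟩ := χ'.2
      have h1 := orth π π'
      rw [hπ, hπ'] at h1
      rw [h1]
      by_cases h2 : χ = χ'
      · rw [if_pos (congrArg Subtype.val h2), if_pos h2]
      · rw [if_neg (fun h3 => h2 (Subtype.ext h3)), if_neg h2]
    have h1 : ∑ g : G, (∑ χ ∈ s, a χ • (χ : G → ℂ)) g * (χ' : G → ℂ) g⁻¹ = 0 := by
      rw [hs]
      simp
    have h2 : ∑ g : G, (∑ χ ∈ s, a χ • (χ : G → ℂ)) g * (χ' : G → ℂ) g⁻¹ =
        ∑ χ ∈ s, a χ * ∑ g : G, (χ : G → ℂ) g * (χ' : G → ℂ) g⁻¹ := by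
      simp only [Finset.sum_apply, Pi.smul_apply, smul_eq_mul, Finset.sum_mul, Finset.mul_sum]
      rw [Finset.sum_comm]
      refine Finset.sum_congr rfl fun χ _ => Finset.sum_congr rfl fun g _ => ?_
      ring
    rw [h2] at h1
    simp only [hor, mul_ite, mul_zero] at h1
    rw [Finset.sum_ite_eq' s χ', if_pos hχ'] at h1
    have h3 : (Nat.card G : ℂ) ≠ 0 := by
      rw [Nat.cast_ne_zero]
      exact Nat.card_pos.ne'
    exact (mul_eq_zero.1 h1).resolve_right h3
  exact hli.setFinite

end H29MD
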