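import Mathlib

/-!
# Numbers fixed by the field automorphisms of `ℂ`
-/

set_option autoImplicit false

namespace H29MD

open scoped Polynomial

/-- automorphisms of the field of algebraic numbers extend to `ℂ` -/
theorem exists_extend (σ : (algebraicClosure ℚ ℂ) ≃+* (algebraicClosure ℚ ℂ)) :
    ∃ τ : ℂ ≃+* ℂ, ∀ x : algebraicClosure ℚ ℂ, τ (x : ℂ) = (σ x : ℂ) := by
  obtain ⟨s, hs⟩ := exists_isTranscendenceBasis (algebraicClosure ℚ ℂ) ℂ
  let := IsAlgClosed.isAlgClosure_of_transcendence_basis _ hs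
  let e : Algebra.adjoin (algebraicClosure ℚ ℂ) (Set.range ((↑) : s → ℂ)) ≃+*
      Algebra.adjoin (algebraicClosure ℚ ℂ) (Set.range ((↑) : s → ℂ)) :=
    (hs.1.aevalEquiv.symm.toRingEquiv.trans (MvPolynomial.mapEquiv s σ)).trans
      hs.1.aevalEquiv.toRingEquiv
  refine ⟨IsAlgClosure.equivOfEquiv ℂ ℂ e, fun x => ?_⟩
  have h1 := IsAlgClosure.equivOfEquiv_algebraMap ℂ ℂ e
    (algebraMap (algebraicClosure ℚ ℂ) _ x)
  have h2 : e (algebraMap (algebraicClosure ℚ ℂ) _ x) = algebraMap (algebraicClosure ℚ ℂ) _ (σ x) := by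
    change hs.1.aevalEquiv (MvPolynomial.map (σ : (algebraicClosure ℚ ℂ) →+* (algebraicClosure ℚ ℂ))
      (hs.1.aevalEquiv.symm (algebraMap (algebraicClosure ℚ ℂ) _ x))) = _
    rw [AlgEquiv.commutes, MvPolynomial.algebraMap_eq, MvPolynomial.map_C]
    exact AlgEquiv.commutes _ _
  rw [h2] at h1
  exact h1

/-- an algebraic number fixed by all automorphisms of `ℂ` is rational -/
theorem rational_of_fixed (x : ℂ) (hx : IsIntegral ℤ x) (h : ∀ τ : ℂ ≃+* ℂ, τ x = x) :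
    ∃ n : ℤ, (n : ℂ) = x := by
  have hx' : IsIntegral ℚ x := hx.tower_top
  have hmem : x ∈ algebraicClosure ℚ ℂ := (mem_algebraicClosure_iff).2 hx'.isAlgebraic
  have h1 : (⟨x, hmem⟩ : algebraicClosure ℚ ℂ) ∈ (⊥ : IntermediateField ℚ (algebraicClosure ℚ ℂ)) := by
    have : IsAlgClosure ℚ (algebraicClosure ℚ ℂ) := algebraicClosure.isAlgClosure ℚ ℂ
    have : Normal ℚ (algebraicClosure ℚ ℂ) := IsAlgClosure.normal ℚ _
    have : IsGalois ℚ (algebraicClosure ℚ ℂ) := ⟨⟩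
    rw [InfiniteGalois.mem_bot_iff_fixed]
    intro σ
    obtain ⟨τ, hτ⟩ := exists_extend (σ : (algebraicClosure ℚ ℂ) ≃+* (algebraicClosure ℚ ℂ))
    apply Subtype.ext
    have h2 := hτ ⟨x, hmem⟩
    rw [h τ] at h2
    exact h2.symm
  rw [IntermediateField.mem_bot] at h1
  obtain ⟨q, hq⟩ := h1
  have h2 : (q : ℂ) = x := by
    have h3 := congrArg (fun y : algebraicClosure ℚ ℂ => (y : ℂ)) hq
    simpa using h3
  have h3 : IsIntegral ℤ q := by
    have h4 : IsIntegral ℤ (algebraMap ℚ ℂ q) := by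
      rw [eq_ratCast, h2]
      exact hx
    exact (isIntegral_algebraMap_iff (algebraMap ℚ ℂ).injective).1 h4
  obtain ⟨n, hn⟩ := IsIntegrallyClosed.isIntegral_iff.1 h3
  refine ⟨n, ?_⟩
  rw [← h2, ← hn]
  simp

end H29MD
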