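import Mathlib
import Pool.Agent.H29.MD.Defs

/-!
# The irreducible matrix representations are jointly faithful on `ℂ[G]`

PROOF.  This is `H25SI.faithful` (`Pool/Agent/H25/SI/Fai.lean`, please read its proof) with complex
coefficients: copy that proof with `toC x` replaced by the element
`x := ∑ g, MonoidAlgebra.single g (v g)` of `MonoidAlgebra ℂ G`; the only lemma that changes is
`ext_rhoS`: for a left ideal `S` with basis `b`, `∑ g, v g • rhoS S b g` is the matrix of
`Algebra.lsmul ℂ ℂ S x` (`rhoS S b g = LinearMap.toMatrix b b (Algebra.lsmul ℂ ℂ S (of g))` by `rfl`,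
and both sides are linear in `v`).  The rest (simple left ideals `S` give an `IrrRep`, and `1` lies in
the supremum of the simple left ideals) is word for word the same.
-/

set_option autoImplicit false

namespace H29MD

open H25SI

theorem ext_rhoC {G : Type} [Group G] [Fintype G]
    (S : Submodule (MonoidAlgebra ℂ G) (MonoidAlgebra ℂ G)) {n : ℕ}
    (b : Module.Basis (Fin n) ℂ S) (v : G → ℂ) :
    ∑ g : G, v g • rhoS S b g = LinearMap.toMatrixAlgEquiv b
      (Algebra.lsmul ℂ ℂ S (∑ g : G, (MonoidAlgebra.single g (v g) : MonoidAlgebra ℂ G))) := by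
  rw [map_sum, map_sum]
  refine Finset.sum_congr rfl fun g _ => ?_
  have h1 : (MonoidAlgebra.single g (v g) : MonoidAlgebra ℂ G)
      = v g • MonoidAlgebra.of ℂ G g := by
    rw [MonoidAlgebra.of_apply, MonoidAlgebra.smul_single]
    simp
  rw [h1, map_smul, map_smul]
  rfl

theorem faithfulC {G : Type} [Group G] [Fintype G] (v : G → ℂ)
    (h : ∀ π : IrrRep G, ∑ g : G, v g • π.ρ g = 0) : v = 0 := by
  classical
  have hcard : NeZero (Nat.card G : ℂ) := ⟨by
    have : 0 < Nat.card G := Nat.card_pos
    exact_mod_cast this.ne'⟩
  set x : MonoidAlgebra ℂ G := ∑ g : G, (MonoidAlgebra.single g (v g) : MonoidAlgebra ℂ G) with hx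
  have hS : ∀ S : Submodule (MonoidAlgebra ℂ G) (MonoidAlgebra ℂ G),
      IsSimpleModule (MonoidAlgebra ℂ G) S → ∀ s ∈ S, x * s = 0 := by
    intro S hsimp s hs
    have hfin := fin_sub S
    let n := Module.finrank ℂ S
    let b : Module.Basis (Fin n) ℂ S := Module.finBasis ℂ S
    have hnt : Nontrivial S := hsimp.nontrivial
    have hpos : 0 < n := Module.finrank_pos
    have hirr : ∀ W : Submodule ℂ (Fin n → ℂ), (∀ g : G, ∀ v ∈ W, (rhoS S b g).mulVec v ∈ W) →
        W = ⊥ ∨ W = ⊤ := by
      intro W hW
      let W' : Submodule (MonoidAlgebra ℂ G) S :=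
        { carrier := {s | b.equivFun s ∈ W}
          add_mem' := fun {u v} hu hv => by
            simp only [Set.mem_ofPred_eq] at hu hv ⊢
            rw [map_add]
            exact W.add_mem hu hv
          zero_mem' := by simp
          smul_mem' := fun c u hu => by
            induction c using MonoidAlgebra.induction_linear with
            | zero => simp
            | add f g hf hg =>
              simp only [Set.mem_ofPred_eq] at hf hg ⊢
              rw [add_smul, map_add]
              exact W.add_mem hf hg
            | single g m =>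
              simp only [Set.mem_ofPred_eq] at hu ⊢
              have h1 : (MonoidAlgebra.single g m : MonoidAlgebra ℂ G)
                  = m • MonoidAlgebra.of ℂ G g := by
                rw [MonoidAlgebra.of_apply, MonoidAlgebra.smul_single]
                simp
              rw [h1, smul_assoc, map_smul, ← rhoS_apply]
              exact W.smul_mem m (hW g _ hu) }
      rcases hsimp.1 with ⟨⟩
      rcases eq_bot_or_eq_top W' with h1 | h1
      · left
        rw [eq_bot_iff]
        intro v hv
        have h2 : b.equivFun.symm v ∈ W' := by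
          change b.equivFun (b.equivFun.symm v) ∈ W
          rwa [LinearEquiv.apply_symm_apply]
        rw [h1, Submodule.mem_bot] at h2
        rw [Submodule.mem_bot]
        exact (LinearEquiv.map_eq_zero_iff _).1 h2
      · right
        rw [eq_top_iff]
        intro v _
        have h2 : b.equivFun.symm v ∈ W' := by rw [h1]; trivial
        have h3 : b.equivFun (b.equivFun.symm v) ∈ W := h2
        rwa [LinearEquiv.apply_symm_apply] at h3
    have h1 := h ⟨n, rhoS S b, hpos, hirr⟩
    have h1' : ∑ g : G, v g • rhoS S b g = 0 := h1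
    rw [ext_rhoC] at h1'
    have h2 : Algebra.lsmul ℂ ℂ S x = 0 := (LinearMap.toMatrixAlgEquiv b).injective
      (by rw [hx, h1', map_zero])
    have h3 := LinearMap.congr_fun h2 ⟨s, hs⟩
    exact congrArg Subtype.val h3
  obtain ⟨T, -, hT1, hT2⟩ := IsSemisimpleModule.exists_sSupIndep_sSup_simples_eq_top
    (MonoidAlgebra ℂ G) (MonoidAlgebra ℂ G)
  have hx0 : x = 0 := by
    have h1 : (1 : MonoidAlgebra ℂ G) ∈ sSup T := by rw [hT1]; trivial
    rw [sSup_eq_iSup'] at h1
    have h2 := Submodule.iSup_induction (fun S : T => (S : Submodule (MonoidAlgebra ℂ G)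
      (MonoidAlgebra ℂ G))) (motive := fun s => x * s = 0) h1
      (fun S s hs => hS S (hT2 S S.2) s hs) (mul_zero _)
      (fun u v hu hv => by rw [mul_add, hu, hv, add_zero])
    rwa [mul_one] at h2
  funext g
  have h3 := congrArg (fun z : MonoidAlgebra ℂ G => z.coeff g) hx0
  have h4 : x.coeff g = v g := by
    rw [hx]
    simp [MonoidAlgebra.coeff_sum, Finsupp.single_apply]
  rw [← h4]
  simpa using h3

end H29MD
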