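import Mathlib
import Pool.Agent.H29.MD.Fth

/-!
# Integrality of a coefficient

PROOF.  Let `M : Matrix N N ℂ`, `M a b = y (a * b⁻¹ * g)` (`a b : N`).  Its trace is `Nat.card N * y g`.
The trace is the sum of the roots of the characteristic polynomial (`Matrix.trace_eq_sum_roots_charpoly`,
`ℂ` algebraically closed), so it is enough that every root `μ` is integral over `ℤ`
(`IsIntegral.multiset_sum` or induction).  A root `μ` is an eigenvalue: there is `v : N → ℂ`, `v ≠ 0`,
`M.mulVec v = μ • v` (`Matrix.mem_spectrum_of_isRoot_charpoly`, `Module.End.HasEigenvalue`, ... ;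
or `Matrix.exists_mulVec_eq_zero_iff` applied to `scalar μ - M`, whose determinant is
`M.charpoly.eval μ`: `Matrix.eval_charpoly`).
Let `V : G → ℂ` be the extension of `v` by zero, and for `π : IrrRep G` let `P = ∑ b, V b • π.ρ b`
`= ∑ b : N, v b • π.ρ b`.  Then `(∑ x, y x • π.ρ x) * π.ρ g⁻¹ * P = μ • P`: the left side is
`∑ x, ∑ b : N, (y x * v b) • π.ρ (x g⁻¹ b)`; put `a = x g⁻¹ b`, i.e. `x = a b⁻¹ g`: it is
`∑ a : G, (∑ b : N, y (a b⁻¹ g) * v b) • π.ρ a`.  If `a ∉ N` then `g⁻¹ (a b⁻¹ g) ∉ N` (`N` normal), so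
the inner sum is `0` by `hy`; for `a ∈ N` it is `(M.mulVec v) a = μ * v a`.
By `faithfulC` there is `π` with `P ≠ 0`.  With `s` from `hs π`: `s • (π.ρ g⁻¹ * P) = μ • P`, hence by
induction `s ^ k • (π.ρ g⁻¹ ^ k * P) = μ ^ k • P`; for `k = orderOf g > 0`: `π.ρ g⁻¹ ^ k = 1`, so
`s ^ k • P = μ ^ k • P`, `μ ^ k = s ^ k` (`P ≠ 0`), which is integral, and `μ` is integral by
`IsIntegral.of_pow`.
-/

set_option autoImplicit false

namespace H29MD

open H25SI

theorem int_coeff {G : Type} [Group G] [Fintype G] (N : Subgroup G) [N.Normal] (y : G → ℂ) (g : G)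
    (hy : ∀ x : G, g⁻¹ * x ∉ N → y x = 0)
    (hs : ∀ π : IrrRep G, ∃ s : ℂ, IsIntegral ℤ s ∧
      ∑ x : G, y x • π.ρ x = s • (1 : Matrix (Fin π.n) (Fin π.n) ℂ)) :
    IsIntegral ℤ ((Nat.card N : ℂ) * y g) := by
  classical
  obtain ⟨M, hM⟩ : ∃ M : Matrix N N ℂ, M = fun (a b : N) => y ((a : G) * (b : G)⁻¹ * g) := ⟨_, rfl⟩
  have htr : M.trace = (Nat.card N : ℂ) * y g := by
    rw [hM, Matrix.trace]
    have h1 : ∀ a : N, Matrix.diag (fun a b : N => y ((a : G) * (b : G)⁻¹ * g)) a = y g := by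
      intro a
      rw [Matrix.diag_apply, mul_inv_cancel, one_mul]
    rw [Finset.sum_congr rfl fun a _ => h1 a, Finset.sum_const, Finset.card_univ, nsmul_eq_mul, Nat.card_eq_fintype_card]
  rw [← htr, Matrix.trace_eq_sum_roots_charpoly]
  have key : ∀ μ ∈ M.charpoly.roots, IsIntegral ℤ μ := by
    intro μ hμ
    have hroot := Polynomial.isRoot_of_mem_roots hμ
    rw [Polynomial.IsRoot, Matrix.eval_charpoly] at hroot
    obtain ⟨v, hv0, hv⟩ := Matrix.exists_mulVec_eq_zero_iff.2 hroot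
    have hMv : ∀ a : N, ∑ b : N, y ((a : G) * (b : G)⁻¹ * g) * v b = μ * v a := by
      intro a
      have h1 := congrFun hv a
      rw [Matrix.sub_mulVec, Pi.sub_apply, Pi.zero_apply, sub_eq_zero] at h1
      have h2 : (Matrix.scalar N μ).mulVec v a = μ * v a := by
        rw [Matrix.scalar_apply, Matrix.mulVec_diagonal]
      rw [← h2, h1, hM]
      rfl
    obtain ⟨V, hV⟩ : ∃ V : G → ℂ, V = fun x => if h : x ∈ N then v ⟨x, h⟩ else 0 := ⟨_, rfl⟩
    have hVN : ∀ b : N, V b = v b := by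
      intro b
      rw [hV]
      simp only
      rw [dif_pos b.2]
    have hVo : ∀ b : G, b ∉ N → V b = 0 := by
      intro b hb
      rw [hV]
      simp only
      rw [dif_neg hb]
    have hV0 : V ≠ 0 := by
      intro h
      apply hv0
      funext b
      rw [← hVN b, h]
      rfl
    obtain ⟨π, hπ⟩ : ∃ π : IrrRep G, ∑ x : G, V x • π.ρ x ≠ 0 := by
      by_contra hc
      exact hV0 (faithfulC V fun π => by
        by_contra h
        exact hc ⟨π, h⟩)
    obtain ⟨P, hP⟩ : ∃ P, P = ∑ x : G, V x • π.ρ x := ⟨_, rfl⟩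
    rw [← hP] at hπ
    have hsum : ∀ a : G, ∑ b : G, y (a * b⁻¹ * g) * V b = μ * V a := by
      intro a
      by_cases ha : a ∈ N
      · rw [hVN ⟨a, ha⟩, ← hMv ⟨a, ha⟩]
        refine (Fintype.sum_of_injective (fun b : N => (b : G)) Subtype.val_injective _ _ ?_ ?_).symm
        · intro b hb
          have : b ∉ N := fun h => hb ⟨⟨b, h⟩, rfl⟩
          rw [hVo b this, mul_zero]
        · intro b
          rw [hVN b]
      · rw [hVo a ha, mul_zero]
        refine Finset.sum_eq_zero fun b _ => ?_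
        by_cases hb : b ∈ N
        · rw [hy (a * b⁻¹ * g), zero_mul]
          intro h
          have h1 : g * (g⁻¹ * (a * b⁻¹ * g)) * g⁻¹ ∈ N := Subgroup.Normal.conj_mem inferInstance _ h g
          have h2 : g * (g⁻¹ * (a * b⁻¹ * g)) * g⁻¹ * b = a := by group
          exact ha (h2 ▸ N.mul_mem h1 hb)
        · rw [hVo b hb, mul_zero]
    have hmul : (∑ x : G, y x • π.ρ x) * π.ρ g⁻¹ * P = μ • P := by
      rw [hP, Finset.sum_mul, Finset.sum_mul_sum]
      rw [Finset.sum_comm]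
      have h1 : ∀ b : G, ∑ x : G, y x • π.ρ x * π.ρ g⁻¹ * V b • π.ρ b =
          ∑ a : G, (y (a * b⁻¹ * g) * V b) • π.ρ a := by
        intro b
        refine (Fintype.sum_equiv (Equiv.mulRight (b⁻¹ * g)) _ _ fun a => ?_).symm
        show (y (a * b⁻¹ * g) * V b) • π.ρ a =
          y (a * (b⁻¹ * g)) • π.ρ (a * (b⁻¹ * g)) * π.ρ g⁻¹ * V b • π.ρ b
        have e1 : π.ρ (a * (b⁻¹ * g)) * π.ρ g⁻¹ * π.ρ b = π.ρ a := by
          rw [← map_mul, ← map_mul]
          congr 1
          group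
        rw [smul_mul_assoc, smul_mul_smul_comm, e1, mul_assoc a]
      rw [Finset.sum_congr rfl fun b _ => h1 b, Finset.sum_comm]
      rw [Finset.smul_sum]
      refine Finset.sum_congr rfl fun a _ => ?_
      rw [← Finset.sum_smul, hsum a, mul_smul]
    obtain ⟨s, hsi, hs1⟩ := hs π
    rw [hs1, smul_mul_assoc, one_mul] at hmul
    have hpow : ∀ k : ℕ, s ^ k • ((π.ρ g⁻¹) ^ k * P) = μ ^ k • P := by
      intro k
      induction k with
      | zero => rw [pow_zero, pow_zero, pow_zero, one_mul]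
      | succ k ih =>
        have h2 : s ^ (k + 1) • ((π.ρ g⁻¹) ^ (k + 1) * P) = s • (π.ρ g⁻¹ * (s ^ k • ((π.ρ g⁻¹) ^ k * P))) := by
          rw [mul_smul_comm, ← mul_assoc, ← pow_succ', smul_smul, ← pow_succ']
        rw [h2, ih, mul_smul_comm, smul_comm, ← smul_mul_assoc s, hmul, smul_smul, ← pow_succ]
    have hk := hpow (orderOf g)
    rw [← map_pow, inv_pow, pow_orderOf_eq_one, inv_one, map_one, one_mul] at hk
    have hμs : s ^ orderOf g = μ ^ orderOf g := smul_left_injective ℂ hπ hk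
    refine IsIntegral.of_pow (orderOf_pos g) ?_
    rw [← hμs]
    exact hsi.pow _
  exact IsIntegral.multiset_sum key

end H29MD
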