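import Mathlib
import Pool.Agent.H29.MD.Defs

/-!
# Sums over the linear characters

PROOFS.  `G →* ℂˣ` is in bijection with `Abelianization G →* ℂˣ` (`Abelianization.lift`, an equivalence),
so it is finite, and `∑ lam, lam x` becomes `∑ μ, μ (Abelianization.of x)`, which is
`card (Abelianization G)` for `x ∈ commutator G` (`Abelianization.of x = 1` iff `x ∈ commutator G`:
`Abelianization.ker_of`) and `0` otherwise (`H25SI.sum_chars`, `H25SI.card_dual`).
`int_s`: with `n = card (G →* ℂˣ)` and `ev_sum`: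
`n⁻¹ * ∑ lam, lam g⁻¹ * ∑ h, b h * f h * lam h = ∑ h, b h * f h * (n⁻¹ * ∑ lam, lam (g⁻¹ h))`, and the inner
factor is `0` or `1` by `sum_lam`; `f h` is a root of unity, so integral (`IsIntegral.of_pow`,
`(f h) ^ Nat.card H = 1`), `b h` is an integer.
-/

set_option autoImplicit false

namespace H29MD

open H25SI

variable {G : Type} [Group G] [Fintype G]

noncomputable instance instFintypeLin : Fintype (G →* ℂˣ) := by
  have : Finite (G →* ℂˣ) := by
    have h1 : Finite (Abelianization G) := Quotient.finite _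
    let i1 : Fintype (Abelianization G) := Fintype.ofFinite _
    have h2 : Finite (Abelianization G →* ℂˣ) := (instFintypeDual (A := Abelianization G)).finite
    exact Finite.of_equiv _ (Abelianization.lift (G := G) (A := ℂˣ)).symm
  exact Fintype.ofFinite _

open Classical in
theorem sum_lam (x : G) : ∑ lam : G →* ℂˣ, ((lam x : ℂˣ) : ℂ)
    = if x ∈ commutator G then (Fintype.card (G →* ℂˣ) : ℂ) else 0 := by
  have i0 : Finite (Abelianization G) := Quotient.finite _
  let i1 : Fintype (Abelianization G) := Fintype.ofFinite _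
  have h1 : ∑ lam : G →* ℂˣ, ((lam x : ℂˣ) : ℂ) =
      (@Finset.univ (Abelianization G →* ℂˣ) instFintypeDual).sum
        fun μ => ((μ (Abelianization.of x) : ℂˣ) : ℂ) := by
    refine @Fintype.sum_equiv _ _ _ _ instFintypeDual _ (Abelianization.lift (G := G) (A := ℂˣ)) _ _ ?_
    intro lam
    rw [Abelianization.lift_apply_of]
  have h2 := sum_chars (A := Abelianization G) (Abelianization.of x)
  have h3 : x ∈ commutator G ↔ Abelianization.of x = 1 := by
    rw [← Abelianization.ker_of, MonoidHom.mem_ker]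
  have h4 : (Fintype.card (G →* ℂˣ) : ℂ) = (Fintype.card (Abelianization G) : ℂ) := by
    rw [← card_dual (A := Abelianization G)]
    congr 1
    exact @Fintype.card_congr _ _ _ instFintypeDual (Abelianization.lift (G := G) (A := ℂˣ))
  rw [h1, h2, h4]
  by_cases h : x ∈ commutator G
  · rw [if_pos h, if_pos (h3.1 h)]
  · rw [if_neg h, if_neg (fun h' => h (h3.2 h'))]

theorem int_s (H : Subgroup G) (f : H →* ℂˣ) (b : MonoidAlgebra ℤ H) (g : G) :
    IsIntegral ℤ ((Fintype.card (G →* ℂˣ) : ℂ)⁻¹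
      * ∑ lam : G →* ℂˣ, ((lam g⁻¹ : ℂˣ) : ℂ) * ev (f * lam.comp H.subtype) b) := by
  classical
  have hn : (Fintype.card (G →* ℂˣ) : ℂ) ≠ 0 := by
    exact_mod_cast Fintype.card_ne_zero
  have h1 : (Fintype.card (G →* ℂˣ) : ℂ)⁻¹
      * ∑ lam : G →* ℂˣ, ((lam g⁻¹ : ℂˣ) : ℂ) * ev (f * lam.comp H.subtype) b =
      ∑ h : H, (b.coeff h : ℂ) * ((f h : ℂˣ) : ℂ) * ((Fintype.card (G →* ℂˣ) : ℂ)⁻¹ *
        ∑ lam : G →* ℂˣ, ((lam (g⁻¹ * h) : ℂˣ) : ℂ)) := by
    have h2 : ∀ lam : G →* ℂˣ, ((lam g⁻¹ : ℂˣ) : ℂ) * ev (f * lam.comp H.subtype) b =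
        ∑ h : H, (b.coeff h : ℂ) * ((f h : ℂˣ) : ℂ) * ((lam (g⁻¹ * h) : ℂˣ) : ℂ) := by
      intro lam
      rw [ev_sum, Finset.mul_sum]
      refine Finset.sum_congr rfl fun h _ => ?_
      rw [MonoidHom.mul_apply, Units.val_mul, map_mul, Units.val_mul]
      simp only [MonoidHom.comp_apply, Subgroup.subtype_apply]
      ring
    rw [Finset.sum_congr rfl fun lam _ => h2 lam, Finset.sum_comm, Finset.mul_sum]
    refine Finset.sum_congr rfl fun h _ => ?_
    rw [← Finset.mul_sum]
    ring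
  rw [h1]
  refine IsIntegral.sum _ fun h _ => ?_
  refine IsIntegral.mul (IsIntegral.mul ?_ ?_) ?_
  · exact isIntegral_algebraMap (R := ℤ) (A := ℂ) (x := b.coeff h)
  · refine IsIntegral.of_pow (n := Nat.card H) Nat.card_pos ?_
    have h2 : ((f h : ℂˣ) : ℂ) ^ Nat.card H = 1 := by
      rw [← Units.val_pow_eq_pow_val, ← map_pow, pow_card_eq_one', map_one, Units.val_one]
    rw [h2]
    exact isIntegral_one
  · rw [sum_lam]
    split_ifs
    · rw [inv_mul_cancel₀ hn]
      exact isIntegral_one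
    · rw [mul_zero]
      exact isIntegral_zero

end H29MD
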