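import Mathlib
import Pool.Agent.H29.MD.Defs

/-!
# Class functions act by scalars (Schur)

PROOF.  `M := ∑ x, c x • π.ρ x` commutes with all `π.ρ g`: `π.ρ g * M * π.ρ g⁻¹ = ∑ x, c x • π.ρ (g x g⁻¹)
= M` by reindexing (`hc`).  As `0 < π.n` and `ℂ` is algebraically closed, `M` (as endomorphism
`Matrix.toLin' M` of `Fin π.n → ℂ`) has an eigenvalue `μ` (`Module.End.exists_eigenvalue`); the
eigenspace `{v | M.mulVec v = μ • v}` is a submodule stable under all `π.ρ g`, not `⊥`, hence `⊤` by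
`π.irr`; so `M = μ • 1`.  Taking traces: `∑ x, c x * chr π x = μ * π.n`, so
`μ = (π.n)⁻¹ * ∑ x, c x * chr π x`.
-/

set_option autoImplicit false

namespace H29MD

open H25SI

theorem scal {G : Type} [Group G] [Fintype G] (π : IrrRep G) (c : G → ℂ)
    (hc : ∀ g x : G, c (g * x * g⁻¹) = c x) :
    ∑ x : G, c x • π.ρ x
      = ((π.n : ℂ)⁻¹ * ∑ x : G, c x * chr π x) • (1 : Matrix (Fin π.n) (Fin π.n) ℂ) := by
  set M : Matrix (Fin π.n) (Fin π.n) ℂ := ∑ x : G, c x • π.ρ x with hM
  have hcomm : ∀ g : G, π.ρ g * M = M * π.ρ g := by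
    intro g
    rw [hM, Finset.mul_sum, Finset.sum_mul]
    refine Fintype.sum_equiv (MulAut.conj g).toEquiv _ _ fun x => ?_
    have e1 : (MulAut.conj g).toEquiv x = g * x * g⁻¹ := rfl
    rw [e1, hc g x, mul_smul_comm, smul_mul_assoc, ← map_mul, ← map_mul, inv_mul_cancel_right]
  have : Nonempty (Fin π.n) := ⟨⟨0, π.pos⟩⟩
  obtain ⟨μ, hμ⟩ := Module.End.exists_eigenvalue (Matrix.toLin' M)
  obtain ⟨v, hv⟩ := hμ.exists_hasEigenvector
  have hW : Module.End.eigenspace (Matrix.toLin' M) μ = ⊤ := by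
    rcases π.irr (Module.End.eigenspace (Matrix.toLin' M) μ) (by
      intro g u hu
      rw [Module.End.mem_eigenspace_iff, Matrix.toLin'_apply] at hu ⊢
      rw [Matrix.mulVec_mulVec, ← hcomm g, ← Matrix.mulVec_mulVec, hu, Matrix.mulVec_smul]) with h | h
    · exfalso
      have h1 : v ∈ Module.End.eigenspace (Matrix.toLin' M) μ := hv.1
      rw [h, Submodule.mem_bot] at h1
      exact hv.2 h1
    · exact h
  have hMμ : M = μ • (1 : Matrix (Fin π.n) (Fin π.n) ℂ) := by
    apply Matrix.toLin'.injective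
    refine LinearMap.ext fun u => ?_
    have hu : u ∈ Module.End.eigenspace (Matrix.toLin' M) μ := by rw [hW]; exact Submodule.mem_top
    rw [Module.End.mem_eigenspace_iff] at hu
    rw [hu, map_smul, Matrix.toLin'_one]
    rfl
  have htr : ∑ x : G, c x * chr π x = μ * (π.n : ℂ) := by
    have h1 : M.trace = μ * (π.n : ℂ) := by
      rw [hMμ, Matrix.trace_smul, Matrix.trace_one, Fintype.card_fin, smul_eq_mul]
    rw [← h1, hM, Matrix.trace_sum]
    refine Finset.sum_congr rfl fun x _ => ?_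
    rw [Matrix.trace_smul, smul_eq_mul]
    rfl
  have hn : (π.n : ℂ) ≠ 0 := by
    have := π.pos
    exact_mod_cast this.ne'
  rw [htr, mul_comm μ, inv_mul_cancel_left₀ hn]
  exact hMμ

end H29MD
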