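import Mathlib
import Pool.Agent.H29.MD.Defs

/-!
# Twists and conjugates of representations and characters

PROOFS.  `exists_twist`: the representation `g ↦ (lam g : ℂ) • π.ρ g`; the same submodules are stable.
`exists_conj`: the representation `g ↦ (π.ρ g).map τ` (`RingHom.mapMatrix`); for a submodule `W` stable
under it, `{v | τ ∘ v ∈ W}` is a submodule (closed under scalars: `τ (c * v i) = τ c * τ (v i)`) stable
under `π.ρ`, so it is `⊥` or `⊤`, and so is `W` (`τ` is bijective).
`indChar_twist`, `indChar_conj`: Frobenius' formula (`H25SI.indChar`) termwise: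
`lam g = lam (t⁻¹ * g * t)`.
`ev_conj`: `ev` is a sum (`H25SI.ev_sum`).
-/

set_option autoImplicit false

namespace H29MD

open H25SI

variable {G : Type} [Group G]

/-- the twisted representation -/
private noncomputable def twRep {n : ℕ} (ρ : G →* Matrix (Fin n) (Fin n) ℂ) (lam : G →* ℂˣ) :
    G →* Matrix (Fin n) (Fin n) ℂ where
  toFun g := ((lam g : ℂˣ) : ℂ) • ρ g
  map_one' := by
    rw [map_one, map_one, Units.val_one, one_smul]
  map_mul' := by
    intro g h
    rw [map_mul, map_mul, Units.val_mul, smul_mul_assoc, mul_smul_comm, smul_smul]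

private theorem twRep_apply {n : ℕ} (ρ : G →* Matrix (Fin n) (Fin n) ℂ) (lam : G →* ℂˣ) (g : G) :
    twRep ρ lam g = ((lam g : ℂˣ) : ℂ) • ρ g := rfl

theorem exists_twist (π : IrrRep G) (lam : G →* ℂˣ) :
    ∃ π' : IrrRep G, chr π' = fun g => ((lam g : ℂˣ) : ℂ) * chr π g := by
  refine ⟨⟨π.n, twRep π.ρ lam, π.pos, fun W hW => ?_⟩, ?_⟩
  · apply π.irr W
    intro g v hv
    have h1 := hW g v hv
    rw [twRep_apply, Matrix.smul_mulVec] at h1
    have h2 := W.smul_mem (((lam g)⁻¹ : ℂˣ) : ℂ) h1
    rwa [smul_smul, Units.inv_mul, one_smul] at h2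
  · funext g
    rw [chr, chr]
    change (twRep π.ρ lam g).trace = _
    rw [twRep_apply, Matrix.trace_smul, smul_eq_mul]

/-- the conjugate representation -/
private noncomputable def cjRep {n : ℕ} (ρ : G →* Matrix (Fin n) (Fin n) ℂ) (τ : ℂ ≃+* ℂ) :
    G →* Matrix (Fin n) (Fin n) ℂ :=
  ((τ : ℂ →+* ℂ).mapMatrix (m := Fin n)).toMonoidHom.comp ρ

private theorem cjRep_mulVec {n : ℕ} (ρ : G →* Matrix (Fin n) (Fin n) ℂ) (τ : ℂ ≃+* ℂ) (g : G)
    (v : Fin n → ℂ) : (cjRep ρ τ g).mulVec (fun i => τ (v i)) = fun i => τ ((ρ g).mulVec v i) := by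
  funext i
  simp only [Matrix.mulVec, dotProduct, map_sum, map_mul]
  rfl

theorem exists_conj (π : IrrRep G) (τ : ℂ ≃+* ℂ) :
    ∃ π' : IrrRep G, chr π' = fun g => τ (chr π g) := by
  refine ⟨⟨π.n, cjRep π.ρ τ, π.pos, fun W hW => ?_⟩, ?_⟩
  · let W' : Submodule ℂ (Fin π.n → ℂ) :=
      { carrier := {v | (fun i => τ (v i)) ∈ W}
        add_mem' := by
          intro a b ha hb
          have h1 := W.add_mem ha hb
          have e : (fun i => τ ((a + b) i)) = (fun i => τ (a i)) + fun i => τ (b i) := by
            funext i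
            simp
          change (fun i => τ ((a + b) i)) ∈ W
          rw [e]
          exact h1
        zero_mem' := by
          have e : (fun i => τ ((0 : Fin π.n → ℂ) i)) = 0 := by
            funext i
            simp
          change (fun i => τ ((0 : Fin π.n → ℂ) i)) ∈ W
          rw [e]
          exact W.zero_mem
        smul_mem' := by
          intro c a ha
          have h1 := W.smul_mem (τ c) ha
          have e : (fun i => τ ((c • a) i)) = τ c • fun i => τ (a i) := by
            funext i
            simp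
          change (fun i => τ ((c • a) i)) ∈ W
          rw [e]
          exact h1 }
    have hmem : ∀ v : Fin π.n → ℂ, v ∈ W' ↔ (fun i => τ (v i)) ∈ W := fun v => Iff.rfl
    have hsurj : ∀ w : Fin π.n → ℂ, (fun i => τ ((fun j => τ.symm (w j)) i)) = w := by
      intro w
      funext i
      exact τ.apply_symm_apply (w i)
    have h1 : ∀ g : G, ∀ v ∈ W', (π.ρ g).mulVec v ∈ W' := by
      intro g v hv
      rw [hmem] at hv ⊢
      rw [← cjRep_mulVec]
      exact hW g _ hv
    rcases π.irr W' h1 with h2 | h2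
    · left
      rw [Submodule.eq_bot_iff]
      intro w hw
      have h3 : (fun j => τ.symm (w j)) ∈ W' := by
        rw [hmem, hsurj]
        exact hw
      rw [h2, Submodule.mem_bot] at h3
      rw [← hsurj w, h3]
      funext i
      simp
    · right
      rw [Submodule.eq_top_iff']
      intro w
      have h3 : (fun j => τ.symm (w j)) ∈ W' := by
        rw [h2]
        exact Submodule.mem_top
      rw [hmem, hsurj] at h3
      exact h3
  · funext g
    rw [chr, chr]
    change (cjRep π.ρ τ g).trace = _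
    rw [Matrix.trace, Matrix.trace, map_sum]
    rfl

variable [Fintype G]

theorem indChar_twist (H : Subgroup G) (f : H →* ℂˣ) (lam : G →* ℂˣ) :
    (fun g => ((lam g : ℂˣ) : ℂ) * indChar H f g) = indChar H (f * lam.comp H.subtype) := by
  classical
  funext g
  simp only [indChar]
  rw [mul_left_comm, Finset.mul_sum]
  congr 1
  refine Finset.sum_congr rfl fun t _ => ?_
  split_ifs with ht
  · have h1 : (f * lam.comp H.subtype) ⟨t⁻¹ * g * t, ht⟩
        = f ⟨t⁻¹ * g * t, ht⟩ * lam (t⁻¹ * g * t) := rfl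
    rw [h1, Units.val_mul, map_mul, map_mul, mul_comm (lam t⁻¹), mul_assoc (lam g),
      ← map_mul lam t⁻¹, inv_mul_cancel, map_one, mul_one, mul_comm]
  · rw [mul_zero]

theorem indChar_conj (H : Subgroup G) (f : H →* ℂˣ) (τ : ℂ ≃+* ℂ) :
    (fun g => τ (indChar H f g)) = indChar H ((Units.map (τ : ℂ →* ℂ)).comp f) := by
  classical
  funext g
  simp only [indChar]
  rw [map_mul, map_inv₀, map_natCast, map_sum]
  congr 1
  refine Finset.sum_congr rfl fun t _ => ?_
  split_ifs with ht
  · rfl
  · rw [map_zero]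

theorem ev_conj (H : Subgroup G) (f : H →* ℂˣ) (τ : ℂ ≃+* ℂ) (b : MonoidAlgebra ℤ H) :
    ev ((Units.map (τ : ℂ →* ℂ)).comp f) b = τ (ev f b) := by
  classical
  rw [ev_sum, ev_sum, map_sum]
  refine Finset.sum_congr rfl fun g _ => ?_
  rw [map_mul, map_intCast]
  rfl

end H29MD
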