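import Mathlib
import Pool.Agent.H29.MD.Fix
import Pool.Agent.H29.MD.Finx
import Pool.Agent.H29.MD.Scl
import Pool.Agent.H29.MD.Int
import Pool.Agent.H29.MD.Twi
import Pool.Agent.H29.MD.Lam

/-!
# The monomial part of the Stickelberger element
-/

set_option autoImplicit false
set_option linter.unusedSectionVars false

namespace H29MD

open H25SI

section
variable {G : Type} [Group G] [Fintype G]

open Classical in
/-- the monomial irreducible characters -/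
noncomputable def XM (G : Type) [Group G] [Fintype G] : Finset (G → ℂ) :=
  (finite_irr (G := G)).toFinset.filter fun χ => IsMono χ

theorem mem_XM (χ : G → ℂ) : χ ∈ XM G ↔ IsIrr χ ∧ IsMono χ := by
  classical
  rw [XM, Finset.mem_filter, Set.Finite.mem_toFinset]
  rfl

/-- twist by a linear character -/
noncomputable def tw (lam : G →* ℂˣ) (χ : G → ℂ) : G → ℂ := fun g => ((lam g : ℂˣ) : ℂ) * χ g

/-- conjugate by an automorphism -/
noncomputable def cj (τ : ℂ ≃+* ℂ) (χ : G → ℂ) : G → ℂ := fun g => τ (χ g)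

theorem tw_mem (lam : G →* ℂˣ) {χ : G → ℂ} (h : χ ∈ XM G) : tw lam χ ∈ XM G := by
  rw [mem_XM] at h ⊢
  obtain ⟨⟨π, hπ⟩, H, f, hf⟩ := h
  constructor
  · obtain ⟨π', hπ'⟩ := exists_twist π lam
    exact ⟨π', by rw [hπ', hπ]; rfl⟩
  · exact ⟨H, f * lam.comp H.subtype, by rw [← indChar_twist, hf]; rfl⟩

theorem cj_mem (τ : ℂ ≃+* ℂ) {χ : G → ℂ} (h : χ ∈ XM G) : cj τ χ ∈ XM G := by
  rw [mem_XM] at h ⊢
  obtain ⟨⟨π, hπ⟩, H, f, hf⟩ := h
  constructor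
  · obtain ⟨π', hπ'⟩ := exists_conj π τ
    exact ⟨π', by rw [hπ', hπ]; rfl⟩
  · exact ⟨H, (Units.map (τ : ℂ →* ℂ)).comp f, by rw [← indChar_conj, hf]; rfl⟩

theorem tw_tw (lam : G →* ℂˣ) (χ : G → ℂ) : tw lam⁻¹ (tw lam χ) = χ := by
  funext g
  simp only [tw, MonoidHom.inv_apply, Units.val_inv_eq_inv_val]
  rw [inv_mul_cancel_left₀ (Units.ne_zero _)]

theorem tw_tw' (lam : G →* ℂˣ) (χ : G → ℂ) : tw lam (tw lam⁻¹ χ) = χ := by
  funext g
  simp only [tw, MonoidHom.inv_apply, Units.val_inv_eq_inv_val]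
  rw [mul_inv_cancel_left₀ (Units.ne_zero _)]

theorem sum_tw (lam : G →* ℂˣ) (F : (G → ℂ) → ℂ) :
    ∑ χ ∈ XM G, F (tw lam χ) = ∑ χ ∈ XM G, F χ := by
  refine Finset.sum_bij' (fun χ _ => tw lam χ) (fun χ _ => tw lam⁻¹ χ) ?_ ?_ ?_ ?_ ?_
  · exact fun χ h => tw_mem lam h
  · exact fun χ h => tw_mem lam⁻¹ h
  · exact fun χ _ => tw_tw lam χ
  · exact fun χ _ => tw_tw' lam χ
  · exact fun χ _ => rfl

theorem sum_cj (τ : ℂ ≃+* ℂ) (F : (G → ℂ) → ℂ) :
    ∑ χ ∈ XM G, F (cj τ χ) = ∑ χ ∈ XM G, F χ := by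
  refine Finset.sum_bij' (fun χ _ => cj τ χ) (fun χ _ => cj τ.symm χ) ?_ ?_ ?_ ?_ ?_
  · exact fun χ h => cj_mem τ h
  · exact fun χ h => cj_mem τ.symm h
  · intro χ _
    funext g
    exact τ.symm_apply_apply _
  · intro χ _
    funext g
    exact τ.apply_symm_apply _
  · exact fun χ _ => rfl

/-- the function with value `a χ` at `χ` -/
noncomputable def E (a : (G → ℂ) → ℂ) (x : G) : ℂ :=
  ∑ χ ∈ XM G, a χ * (χ 1 / (Nat.card G : ℂ)) * χ x⁻¹

theorem cardG_ne : (Nat.card G : ℂ) ≠ 0 := by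
  have : 0 < Nat.card G := Nat.card_pos
  exact_mod_cast this.ne'

theorem chr_conj (π : IrrRep G) (g x : G) : chr π (g * x * g⁻¹) = chr π x := by
  simp only [chr]
  rw [map_mul, map_mul, Matrix.trace_mul_comm, ← mul_assoc, ← map_mul, inv_mul_cancel, map_one,
    one_mul]

theorem E_conj (a : (G → ℂ) → ℂ) (g x : G) : E a (g * x * g⁻¹) = E a x := by
  rw [E, E]
  refine Finset.sum_congr rfl fun χ hχ => ?_
  obtain ⟨⟨π, hπ⟩, -⟩ := (mem_XM χ).1 hχ
  rw [← hπ]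
  congr 1
  have e : (g * x * g⁻¹)⁻¹ = g * x⁻¹ * g⁻¹ := by group
  rw [e, chr_conj]

theorem chr_one (π : IrrRep G) : chr π 1 = π.n := by
  simp [chr]

open Classical in
theorem E_act (a : (G → ℂ) → ℂ) (π : IrrRep G) :
    ∑ x : G, E a x • π.ρ x
      = (if IsMono (chr π) then a (chr π) else 0) • (1 : Matrix (Fin π.n) (Fin π.n) ℂ) := by
  rw [scal π (E a) (E_conj a)]
  congr 1
  have hn : (π.n : ℂ) ≠ 0 := by exact_mod_cast π.pos.ne'
  have h1 : ∑ x : G, E a x * chr π x = ∑ χ ∈ XM G, (a χ * (χ 1 / (Nat.card G : ℂ)))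
      * ∑ x : G, chr π x * χ x⁻¹ := by
    simp only [E, Finset.sum_mul, Finset.mul_sum]
    rw [Finset.sum_comm]
    refine Finset.sum_congr rfl fun χ _ => Finset.sum_congr rfl fun x _ => ?_
    ring
  have h2 : ∀ χ ∈ XM G, (a χ * (χ 1 / (Nat.card G : ℂ))) * ∑ x : G, chr π x * χ x⁻¹
      = if chr π = χ then a χ * χ 1 else 0 := by
    intro χ hχ
    obtain ⟨⟨π', hπ'⟩, -⟩ := (mem_XM χ).1 hχ
    have h3 := orth π π'
    rw [hπ'] at h3
    rw [h3]
    split_ifs with h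
    · field_simp [cardG_ne (G := G)]
    · rw [mul_zero]
  rw [h1, Finset.sum_congr rfl h2, Finset.sum_ite_eq]
  by_cases h : IsMono (chr π)
  · rw [if_pos ((mem_XM _).2 ⟨⟨π, rfl⟩, h⟩), if_pos h, chr_one]
    field_simp
  · rw [if_neg fun hh => h ((mem_XM _).1 hh).2, if_neg h, mul_zero]

variable (Λ : (G → ℂ) → ℂ)

/-- the averages -/
noncomputable def sg (g : G) (χ : G → ℂ) : ℂ :=
  (Fintype.card (G →* ℂˣ) : ℂ)⁻¹ * ∑ lam : G →* ℂˣ, ((lam g⁻¹ : ℂˣ) : ℂ) * Λ (tw lam χ)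

theorem sg_int (hΛ : ∀ H : Subgroup G, IntegralAt Λ H) (g : G) (χ : G → ℂ) (h : IsMono χ) :
    IsIntegral ℤ (sg Λ g χ) := by
  obtain ⟨H, f, hf⟩ := h
  obtain ⟨b, hb⟩ := hΛ H
  have h1 : sg Λ g χ = (Fintype.card (G →* ℂˣ) : ℂ)⁻¹
      * ∑ lam : G →* ℂˣ, ((lam g⁻¹ : ℂˣ) : ℂ) * ev (f * lam.comp H.subtype) b := by
    rw [sg]
    congr 1
    refine Finset.sum_congr rfl fun lam _ => ?_
    rw [← hb, ← indChar_twist, hf]
    rfl
  rw [h1]
  exact int_s H f b g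

open Classical in
theorem E_sg (g x : G) : E (sg Λ g) x = if g⁻¹ * x ∈ commutator G then E Λ x else 0 := by
  have hn : (Fintype.card (G →* ℂˣ) : ℂ) ≠ 0 := by
    exact_mod_cast Fintype.card_ne_zero
  have h1 : E (sg Λ g) x = (Fintype.card (G →* ℂˣ) : ℂ)⁻¹ * ∑ lam : G →* ℂˣ,
      ((lam g⁻¹ : ℂˣ) : ℂ) * ∑ χ ∈ XM G, Λ (tw lam χ) * (χ 1 / (Nat.card G : ℂ)) * χ x⁻¹ := by
    simp only [E, sg, Finset.sum_mul, Finset.mul_sum]
    rw [Finset.sum_comm]
    refine Finset.sum_congr rfl fun lam _ => Finset.sum_congr rfl fun χ _ => ?_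
    ring
  have h2 : ∀ lam : G →* ℂˣ, ∑ χ ∈ XM G, Λ (tw lam χ) * (χ 1 / (Nat.card G : ℂ)) * χ x⁻¹
      = ((lam x : ℂˣ) : ℂ) * E Λ x := by
    intro lam
    rw [E, Finset.mul_sum, ← sum_tw lam fun χ => ((lam x : ℂˣ) : ℂ)
      * (Λ χ * (χ 1 / (Nat.card G : ℂ)) * χ x⁻¹)]
    refine Finset.sum_congr rfl fun χ _ => ?_
    have e1 : tw lam χ 1 = χ 1 := by simp [tw]
    have e2 : tw lam χ x⁻¹ = ((lam x : ℂˣ) : ℂ)⁻¹ * χ x⁻¹ := by simp [tw]
    rw [e1, e2]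
    field_simp
  rw [h1, Finset.sum_congr rfl fun lam _ => by rw [h2 lam]]
  have h3 : ∑ lam : G →* ℂˣ, ((lam g⁻¹ : ℂˣ) : ℂ) * (((lam x : ℂˣ) : ℂ) * E Λ x)
      = (∑ lam : G →* ℂˣ, ((lam (g⁻¹ * x) : ℂˣ) : ℂ)) * E Λ x := by
    rw [Finset.sum_mul]
    refine Finset.sum_congr rfl fun lam _ => ?_
    rw [map_mul, Units.val_mul, mul_assoc]
  rw [h3, sum_lam]
  split_ifs with h
  · field_simp
  · rw [zero_mul, mul_zero]

theorem W_int (hΛ : ∀ H : Subgroup G, IntegralAt Λ H) (g : G) :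
    IsIntegral ℤ ((Nat.card (commutator G) : ℂ) * E Λ g) := by
  classical
  have h1 : E Λ g = E (sg Λ g) g := by
    rw [E_sg, if_pos]
    rw [inv_mul_cancel]
    exact Subgroup.one_mem _
  rw [h1]
  refine int_coeff (commutator G) (E (sg Λ g)) g (fun x hx => ?_) fun π => ?_
  · rw [E_sg, if_neg hx]
  · refine ⟨_, ?_, E_act (sg Λ g) π⟩
    split_ifs with h
    · exact sg_int Λ hΛ g _ h
    · exact isIntegral_zero

theorem W_fix (hΛ : ∀ H : Subgroup G, IntegralAt Λ H) (τ : ℂ ≃+* ℂ) (x : G) :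
    τ (E Λ x) = E Λ x := by
  rw [E, map_sum, ← sum_cj τ fun χ => Λ χ * (χ 1 / (Nat.card G : ℂ)) * χ x⁻¹]
  refine Finset.sum_congr rfl fun χ hχ => ?_
  obtain ⟨-, H, f, hf⟩ := (mem_XM χ).1 hχ
  obtain ⟨b, hb⟩ := hΛ H
  have h1 : τ (Λ χ) = Λ (cj τ χ) := by
    have h2 : cj τ χ = indChar H ((Units.map (τ : ℂ →* ℂ)).comp f) := by
      rw [← indChar_conj, hf]
      rfl
    rw [h2, hb, ev_conj, hf, hb]
  rw [map_mul, map_mul, map_div₀, map_natCast, h1]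
  rfl

/-- main theorem -/
theorem monomial_denominators (hΛ : ∀ H : Subgroup G, IntegralAt Λ H) :
    ∃ z ∈ Subring.center (MonoidAlgebra ℤ G), ∀ π : IrrRep G,
      ((∃ (H : Subgroup G) (f : H →* ℂˣ), (fun g => (π.ρ g).trace) = indChar H f) →
        centralValue z π = (Nat.card (commutator G) : ℂ) * theta Λ π) ∧
      ((¬ ∃ (H : Subgroup G) (f : H →* ℂˣ), (fun g => (π.ρ g).trace) = indChar H f) →
        centralValue z π = 0) := by
  classical
  have h1 : ∀ x : G, ∃ n : ℤ, (n : ℂ) = (Nat.card (commutator G) : ℂ) * E Λ x := by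
    intro x
    refine rational_of_fixed _ (W_int Λ hΛ x) fun τ => ?_
    rw [map_mul, map_natCast, W_fix Λ hΛ]
  choose Z hZ using h1
  let z : MonoidAlgebra ℤ G := ∑ x : G, MonoidAlgebra.single x (Z x)
  have hact : ∀ π : IrrRep G, ext π.ρ z = ((Nat.card (commutator G) : ℂ)
      * (if IsMono (chr π) then Λ (chr π) else 0)) • (1 : Matrix (Fin π.n) (Fin π.n) ℂ) := by
    intro π
    have h2 : ext π.ρ z = ∑ x : G, (Nat.card (commutator G) : ℂ) • (E Λ x • π.ρ x) := by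
      simp only [z]
      rw [map_sum]
      refine Finset.sum_congr rfl fun x _ => ?_
      rw [ext_single, smul_smul, ← hZ, Int.cast_smul_eq_zsmul]
    rw [h2, ← Finset.smul_sum, E_act, smul_smul]
  refine ⟨z, central_of_scalar z fun π => ⟨_, hact π⟩, fun π => ?_⟩
  have hn : (π.n : ℂ) ≠ 0 := by exact_mod_cast π.pos.ne'
  have hval : centralValue z π = (Nat.card (commutator G) : ℂ)
      * (if IsMono (chr π) then Λ (chr π) else 0) := by
    rw [centralValue, hact, Matrix.trace_smul, Matrix.trace_one, Fintype.card_fin, smul_eq_mul]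
    field_simp
  constructor
  · intro h
    rw [hval, if_pos (show IsMono (chr π) from h)]
    rfl
  · intro h
    rw [hval, if_neg (show ¬ IsMono (chr π) from h), mul_zero]

end

end H29MD
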